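import Pool.Agent.W2helper17.TP.Stm

set_option autoImplicit false

namespace TP.Schur71

open MeasureTheory Complex
open scoped ENNReal

noncomputable section

/-- an entire function which is the conjugate of an entire function is constant -/
theorem ent_conj_const {h k : ℂ → ℂ} (hh : Differentiable ℂ h) (hk : Differentiable ℂ k)
    (e : ∀ z, h z = starRingEnd ℂ (k z)) (z : ℂ) : h z = h 0 := by
  have key : ∀ F : ℂ → ℂ, Differentiable ℂ F → (∀ z, (F z).re = 0) → ∀ z, F z = F 0 := by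
    intro F hF hre z
    have h1 : Differentiable ℂ (fun z => exp (F z)) := hF.cexp
    have hb : Bornology.IsBounded (Set.range (fun z => exp (F z))) := by
      rw [isBounded_iff_forall_norm_le]
      refine ⟨1, ?_⟩
      rintro _ ⟨z, rfl⟩
      simp only
      rw [Complex.norm_exp, hre, Real.exp_zero]
    have hd : deriv F = 0 := by
      funext w
      have h2 : (fun z => exp (F z)) = fun _ => exp (F 0) := by
        funext z
        exact h1.apply_eq_apply_of_bounded hb z 0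
      have h3 : HasDerivAt (fun z => exp (F z)) (exp (F w) * deriv F w) w :=
        (hF w).hasDerivAt.cexp
      rw [h2] at h3
      have h4 := h3.unique (hasDerivAt_const w (exp (F 0)))
      rcases mul_eq_zero.1 h4 with h5 | h5
      · exact absurd h5 (exp_ne_zero _)
      · exact h5
    exact is_const_of_deriv_eq_zero hF (fun w => congrFun hd w) z 0
  have h1 := key (fun z => h z - k z) (hh.sub hk) (by
    intro z
    rw [e z, Complex.sub_re, Complex.conj_re, sub_self])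
  have h2 := key (fun z => I * (h z + k z)) ((hh.add hk).const_mul I) (by
    intro z
    rw [e z]
    simp [Complex.mul_re, Complex.add_re, Complex.add_im])
  have h3 := h1 z
  have h4 := mul_left_cancel₀ I_ne_zero (h2 z)
  have h5 : 2 * h z = 2 * h 0 := by linear_combination h3 + h4
  exact mul_left_cancel₀ two_ne_zero h5

theorem tp_one_cont (hOM : P_OM) (j : ℕ) : Continuous (tp j (fun _ => 1)) := by
  have h1 : tp j (fun _ => 1) = fun z => (1 / (j.factorial : ℂ)) * (-(starRingEnd ℂ z)) ^ j := by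
    funext z; exact (hOM j).1 z
  rw [h1]
  fun_prop

theorem tp_one_memLp (hOM : P_OM) (hPOL : P_POL) (j : ℕ) : MemLp (tp j (fun _ => 1)) 2 gm := by
  refine hPOL _ (tp_one_cont hOM j) ⟨1, j, fun z => ?_⟩
  rw [(hOM j).1 z, norm_mul, norm_pow, norm_neg, RCLike.norm_conj, one_mul]
  have h1 : ‖(1 / (j.factorial : ℂ))‖ ≤ 1 := by
    rw [norm_div, norm_one, Complex.norm_natCast]
    rw [div_le_one (by exact_mod_cast j.factorial_pos)]
    exact_mod_cast j.factorial_pos
  calc ‖(1 / (j.factorial : ℂ))‖ * ‖z‖ ^ j ≤ 1 * (1 + ‖z‖) ^ j := by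
        apply mul_le_mul h1 _ (by positivity) (by norm_num)
        exact pow_le_pow_left₀ (norm_nonneg _) (by linarith) j
    _ = _ := one_mul _

/-- the vacuum vector -/
def Om (hOM : P_OM) (hPOL : P_POL) (j : ℕ) : H := (tp_one_memLp hOM hPOL j).toLp _

theorem Om_coe (hOM : P_OM) (hPOL : P_POL) (j : ℕ) :
    Om hOM hPOL j =ᵐ[gm] tp j (fun _ => 1) := MemLp.coeFn_toLp _

theorem Om_mem (hOM : P_OM) (hPOL : P_POL) (j : ℕ) : Om hOM hPOL j ∈ Fock j :=
  ⟨fun _ => 1, differentiable_const _, Om_coe hOM hPOL j⟩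

theorem wfac_diff (w : ℂ) : Differentiable ℂ (wfac w) := by
  unfold wfac
  fun_prop

/-- the basic formula -/
theorem inner_Om (hOM : P_OM) (hPOL : P_POL) (hCOV : P_COV) (j : ℕ) : ∃ c : ℂ, c ≠ 0 ∧
    ∀ (f : H) (g : ℂ → ℂ), Differentiable ℂ g → f =ᵐ[gm] tp j g → ∀ ζ : ℂ,
      inner ℂ (W ζ (Om hOM hPOL j)) f = c * ((Real.exp (-(‖ζ‖ ^ 2 / 2)) : ℝ) * g ζ) := by
  obtain ⟨c, hc, H⟩ := (hOM j).2
  refine ⟨c, hc, fun f g hg hf ζ => ?_⟩
  rw [W_adj, L2.inner_def]
  have h1 : W (-ζ) f =ᵐ[gm] tp j (fun u => wfac (-ζ) u * g (u - -ζ)) := by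
    filter_upwards [W_congr (-ζ) hf] with z hz
    rw [hz, hCOV j g hg (-ζ) z]
  have hd : Differentiable ℂ (fun u => wfac (-ζ) u * g (u - -ζ)) :=
    (wfac_diff _).mul (hg.comp (differentiable_id.sub_const _))
  have hm : MemLp (tp j (fun u => wfac (-ζ) u * g (u - -ζ))) 2 gm :=
    (memLp_congr_ae h1).1 (Lp.memLp _)
  have h2 := H _ hd hm
  have h3 : ∫ z, inner ℂ ((Om hOM hPOL j : ℂ → ℂ) z) ((W (-ζ) f : ℂ → ℂ) z) ∂gm =
      ∫ z, starRingEnd ℂ (tp j (fun _ => 1) z) *
        tp j (fun u => wfac (-ζ) u * g (u - -ζ)) z ∂gm := by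
    apply integral_congr_ae
    filter_upwards [Om_coe hOM hPOL j, h1] with z e1 e2
    rw [e1, e2, RCLike.inner_apply']
  rw [h3, h2]
  congr 1
  simp only [zero_sub, neg_neg]
  congr 1
  unfold wfac
  rw [zero_mul, zero_sub, norm_neg, ← Complex.ofReal_neg, ← Complex.ofReal_exp]

theorem piece (hOM : P_OM) (hPOL : P_POL) (hCOV : P_COV) (hCLO : P_CLO) : P_SCHUR := by
  intro j P S hP hS
  obtain ⟨hP1, hP2, hP3⟩ := hP
  set Ω : H := Om hOM hPOL j with hΩ
  have hΩm : Ω ∈ Fock j := Om_mem hOM hPOL j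
  have hPΩ : P Ω = Ω := hP2 _ hΩm
  obtain ⟨c, hc, hin⟩ := inner_Om hOM hPOL hCOV j
  -- an element of the Fock space orthogonal to all `W ζ Ω` vanishes
  have hzero : ∀ f ∈ Fock j, (∀ ζ, inner ℂ (W ζ Ω) f = 0) → f = 0 := by
    rintro f ⟨g, hg, hf⟩ h0
    have hg0 : g = fun _ => 0 := by
      funext ζ
      have h1 := h0 ζ
      rw [hin f g hg hf ζ] at h1
      rcases mul_eq_zero.1 h1 with h2 | h2
      · exact absurd h2 hc
      · rcases mul_eq_zero.1 h2 with h3 | h3
        · exfalso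
          have : Real.exp (-(‖ζ‖ ^ 2 / 2)) = 0 := by exact_mod_cast h3
          exact (Real.exp_pos _).ne' this
        · exact h3
    apply Lp.ext
    filter_upwards [hf, Lp.coeFn_zero ℂ 2 gm] with z e1 e2
    rw [e1, e2, hg0]
    simp [tp]
  have hWm : ∀ w, ∀ f ∈ Fock j, W w f ∈ Fock j := (hCLO j).2
  -- the exchange identity
  have hex : ∀ S : H →L[ℂ] H, (∀ w f, P (S (W w (P f))) = W w (P (S (P f)))) →
      ∀ (ζ : ℂ) (f : H), inner ℂ (W ζ Ω) (P (S (P f))) =
        inner ℂ (P (ContinuousLinearMap.adjoint S Ω)) (W (-ζ) (P f)) := by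
    intro S hS ζ f
    rw [W_adj, ← hS (-ζ) f, ← hP3, hPΩ, hP3, ContinuousLinearMap.adjoint_inner_left,
      hP2 _ (hWm _ _ (hP1 f))]
  -- an operator which kills `Ω` vanishes
  have hvan : ∀ S : H →L[ℂ] H, (∀ w f, P (S (W w (P f))) = W w (P (S (P f)))) →
      P (S (P Ω)) = 0 → ∀ f, P (S (P f)) = 0 := by
    intro S hS h0
    have h1 : P (ContinuousLinearMap.adjoint S Ω) = 0 := by
      apply hzero _ (hP1 _)
      intro ζ
      have h2 := hex S hS (-ζ) Ω
      rw [h0, inner_zero_right, neg_neg, hPΩ] at h2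
      rw [← inner_conj_symm, ← h2, map_zero]
    intro f
    apply hzero _ (hP1 _)
    intro ζ
    rw [hex S hS ζ f, h1, inner_zero_left]
  -- `P S Ω` is a multiple of `Ω`
  obtain ⟨g, hg, hgf⟩ := hP1 (S (P Ω))
  obtain ⟨g', hg', hgf'⟩ := hP1 (ContinuousLinearMap.adjoint S Ω)
  have hrel : ∀ ζ, c * g ζ = starRingEnd ℂ (c * g' (-ζ)) := by
    intro ζ
    have h1 := hex S hS ζ Ω
    rw [hin _ g hg hgf ζ, hPΩ, ← inner_conj_symm, hin _ g' hg' hgf' (-ζ), norm_neg] at h1
    have h2 : (Real.exp (-(‖ζ‖ ^ 2 / 2)) : ℂ) ≠ 0 := by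
      exact_mod_cast (Real.exp_pos _).ne'
    rw [map_mul, map_mul, Complex.conj_ofReal] at h1
    rw [map_mul]
    apply mul_left_cancel₀ h2
    linear_combination h1
  have hconst : ∀ ζ, c * g ζ = c * g 0 := fun ζ =>
    ent_conj_const (h := fun ζ => c * g ζ) (k := fun ζ => c * g' (-ζ)) (hg.const_mul c)
      ((hg'.comp differentiable_neg).const_mul c) hrel ζ
  have hgc : g = fun _ => g 0 := by
    funext ζ
    exact mul_left_cancel₀ hc (hconst ζ)
  set d : ℂ := g 0 with hd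
  have hSΩ : P (S (P Ω)) = d • Ω := by
    apply Lp.ext
    filter_upwards [hgf, Lp.coeFn_smul d Ω, Om_coe hOM hPOL j] with z e1 e2 e3
    rw [e1, e2, Pi.smul_apply, hΩ, e3, smul_eq_mul, ← tp_smul (differentiable_const _), hgc]
    simp only [mul_one]
  refine ⟨d, fun f => ?_⟩
  have hS' : ∀ w f, P ((S - d • ContinuousLinearMap.id ℂ H) (W w (P f))) =
      W w (P ((S - d • ContinuousLinearMap.id ℂ H) (P f))) := by
    intro w f
    simp only [_root_.sub_apply, _root_.smul_apply,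
      ContinuousLinearMap.id_apply, map_sub, map_smul]
    rw [hS, hP2 _ (hWm _ _ (hP1 f)), hP2 _ (hP1 f)]
  have h0 : P ((S - d • ContinuousLinearMap.id ℂ H) (P Ω)) = 0 := by
    simp only [_root_.sub_apply, _root_.smul_apply,
      ContinuousLinearMap.id_apply, map_sub, map_smul]
    rw [hSΩ, hP2 _ (hP1 _), hPΩ, sub_self]
  have h1 := hvan _ hS' h0 f
  simp only [_root_.sub_apply, _root_.smul_apply,
      ContinuousLinearMap.id_apply, map_sub, map_smul] at h1
  rw [hP2 _ (hP1 f)] at h1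
  exact sub_eq_zero.1 h1

end

end TP.Schur71

namespace TP

/-- Piece SCHUR -/
theorem piece_SCHUR (hOM : P_OM) (hPOL : P_POL) (hCOV : P_COV) (hCLO : P_CLO) : P_SCHUR :=
  Schur71.piece hOM hPOL hCOV hCLO

end TP
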